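import Mathlib
import Pool.Agent.T2H73.Geq7

set_option autoImplicit false

/-!
# MP_d0383e_an, Q1: curvature can increase the effective burning velocity of a 3D shear flow

We disprove Q1.  There are a non-constant Lipschitz `ℤ²`-periodic `f`, `d > 0`, `A > 0` and a unit
vector `P` with `p₃ ≠ 0` for which the effective burning velocity `H̄₊(P,d,A)` exists and is
strictly larger than `H̄₊(P,0,A)`.

The construction is inverse: a smooth travelling wave `Φ(X) - t` of the curvature G-equation is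
prescribed and `f` is read off from the equation; comparison of viscosity solutions with smooth
functions gives `H̄₊(P,d,A) = 1`, and a smooth strict subsolution `Ψ(X) - H' t`, `H' < 1`, of the
first order equation gives `H̄₊(P,0,A) ≤ H'`.
-/

open Filter Set

namespace Pool.Agent.Results.MP_d0383e_an.CurvatureSpeedsUp

open Pool.Agent.T2H73.Geq

/-- The profile of the shear flow. -/
noncomputable def prof (e k : ℝ) (x : V2) : ℝ :=
  (1 - (NN e (cv (2 * Real.pi * x 0) (2 * Real.pi * x 1))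
    - k * TT e (cv (2 * Real.pi * x 0) (2 * Real.pi * x 1))) / 2) / PP 2

lemma prof_periodic (e k : ℝ) (x : V2) (m : Fin 2 → ℤ) :
    prof e k (x + fun i => (m i : ℝ)) = prof e k x := by
  unfold prof
  simp only [Pi.add_apply]
  have e1 : 2 * Real.pi * (x 0 + (m 0 : ℝ)) = 2 * Real.pi * x 0 + (m 0 : ℝ) * (2 * Real.pi) := by
    ring
  have e2 : 2 * Real.pi * (x 1 + (m 1 : ℝ)) = 2 * Real.pi * x 1 + (m 1 : ℝ) * (2 * Real.pi) := by
    ring
  rw [e1, e2, cv_periodic]

lemma contDiff_prof (e k : ℝ) : ContDiff ℝ 2 (prof e k) := by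
  unfold prof
  have h1 : ContDiff ℝ 2 (fun x : V2 => ((2 * Real.pi * x 0, 2 * Real.pi * x 1) : ℝ × ℝ)) := by
    fun_prop
  have h2 := contDiff_cv.comp h1
  exact ((contDiff_const.sub ((((contDiff_NN e).comp h2).sub
    (contDiff_const.mul ((contDiff_TT e).comp h2))).div_const 2)).div_const (PP 2))

lemma prof_nonconst {e k : ℝ}
    (hne : NN e (1,0,1,0) - k * TT e (1,0,1,0) ≠ NN e (0,1,1,0) - k * TT e (0,1,1,0)) :
    prof e k ![0, 0] ≠ prof e k ![1/4, 0] := by
  have h1 : cv (2 * Real.pi * (![0, 0] : V2) 0) (2 * Real.pi * (![0, 0] : V2) 1) = (1,0,1,0) := by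
    simp [cv]
  have h2 : cv (2 * Real.pi * (![1/4, 0] : V2) 0) (2 * Real.pi * (![1/4, 0] : V2) 1)
      = (0,1,1,0) := by
    have : 2 * Real.pi * (1/4 : ℝ) = Real.pi / 2 := by ring
    simp only [Matrix.cons_val_zero, Matrix.cons_val_one, cv, this]
    simp
  unfold prof
  rw [h1, h2]
  intro h
  apply hne
  have h3 := PP2_pos
  rw [div_left_inj' h3.ne'] at h
  linarith

/-- **Q1 of MP_d0383e_an is false.** -/
theorem result : ∃ (f : V2 → ℝ) (d A : ℝ) (P : V3),
    -- `f` is Lipschitz, `ℤ²`-periodic and non-constant; `d, A > 0`; `|P| = 1`, `p₃ ≠ 0`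
    (∃ K, LipschitzWith K f) ∧ (∀ (x : V2) (m : Fin 2 → ℤ), f (x + fun i => (m i : ℝ)) = f x) ∧
    (∃ x y, f x ≠ f y) ∧ 0 < d ∧ 0 < A ∧ dot P P = 1 ∧ P 2 ≠ 0 ∧
    ∃ H H' : ℝ, H' < H ∧
      -- `H̄₊(P,d,A) = H`
      IsEffectiveVelocity f d A P H ∧
      -- `H̄₊(P,0,A) ≤ H'`
      (∀ G, IsViscositySolution f 0 A P G →
        ∃ C : ℝ, ∀ X t, 0 ≤ t → -(G X t - dot P X) ≤ H' * t + C) ∧
      (∀ H0, (∃ G, IsViscositySolution f 0 A P G) → IsEffectiveVelocity f 0 A P H0 → H0 ≤ H') ∧
      -- the curvature equation has a smooth travelling wave of speed `H`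
      (∃ Φ : V3 → ℝ, ContDiff ℝ 2 Φ ∧ (∃ C, ∀ X, |Φ X - dot P X| ≤ C) ∧
        ∀ X, grad Φ X ≠ 0 ∧
          speed d (grad Φ X) (hess Φ X) + A * f ![X 0, X 1] * grad Φ X 2 = H) := by
  obtain ⟨e, k, he, he1, hk, hkey, hne⟩ := key2
  have hP2 := PP2_pos
  have hpos : ∀ X : V3, 0 < NN e (pt X) - k * TT e (pt X) := fun X =>
    lt_of_le_of_lt (Real.sqrt_nonneg _) (hkey _ (pt_mem X))
  have hfP : ∀ X : V3, 1 * prof e k ![X 0, X 1] * PP 2
      = 1 - (NN e (pt X) - k * TT e (pt X)) / 2 := by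
    intro X
    unfold prof
    simp only [Matrix.cons_val_zero, Matrix.cons_val_one, pt]
    field_simp
  have hgP : ∀ X : V3, grad (Phi e) X 2 = PP 2 := fun X => by rw [grad_Phi, PP2]; simp
  have hgPs : ∀ X : V3, grad (Psi e k) X 2 = PP 2 := fun X => by rw [grad_Psi, PP2]; simp
  -- bounds
  have hcd : ContDiff ℝ 2 (Phi e) := contDiff_lift _ _ _ (contDiff_w e)
  have hcds : ContDiff ℝ 2 (Psi e k) := contDiff_lift _ _ _ (contDiff_psi e k)
  have hper : ∀ (X : V3) (m : Fin 3 → ℤ), Phi e (X + fun i => (m i : ℝ))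
      = Phi e X + dot PP (fun i => (m i : ℝ)) := by
    intro X m
    rw [dot_PP]
    exact periodic_lift _ _ _ (w_periodic e) X m
  have hpers : ∀ (X : V3) (m : Fin 3 → ℤ), Psi e k (X + fun i => (m i : ℝ))
      = Psi e k X + dot PP (fun i => (m i : ℝ)) := by
    intro X m
    rw [dot_PP]
    exact periodic_lift _ _ _ (psi_periodic e k) X m
  obtain ⟨⟨C0, hC0⟩, B, hB1, hB2⟩ := bounded_jets hcd hper
  obtain ⟨⟨C1, hC1⟩, B', hB1', hB2'⟩ := bounded_jets hcds hpers
  obtain ⟨Bf, hBf⟩ := bounded_of_periodic (contDiff_prof e k).continuous (prof_periodic e k)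
  obtain ⟨K, hK⟩ := lipschitz_of_periodic ((contDiff_prof e k).of_le (by norm_num))
    (prof_periodic e k)
  -- the equation for Phi
  have hcell : ∀ X : V3, speed (k / (2 * Real.pi)) (grad (Phi e) X) (hess (Phi e) X)
      + 1 * prof e k ![X 0, X 1] * PP 2 = 1 := by
    intro X
    rw [speed_Phi e k X (hpos X), hfP]
    ring
  -- the gap for Psi
  set D : ℝ × ℝ × ℝ × ℝ → ℝ := fun v => NN e v - k * TT e v
    - Real.sqrt ((ux e v - k * hx e v)^2 + (uy e v - k * hy e v)^2 + 3) with hD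
  have hDc : Continuous D := by
    refine ((continuous_NN e).sub (continuous_const.mul (continuous_TT e))).sub ?_
    refine Real.continuous_sqrt.comp ?_
    exact ((((continuous_ux e).sub (continuous_const.mul (continuous_hx e))).pow 2).add
      (((continuous_uy e).sub (continuous_const.mul (continuous_hy e))).pow 2)).add
      continuous_const
  have hne4 : K4.Nonempty := ⟨(1,0,1,0), by simp [K4]⟩
  obtain ⟨v0, hv0, hmin⟩ := isCompact_K4.exists_isMinOn hne4 hDc.continuousOn
  have hm0 : 0 < D v0 := by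
    have := hkey v0 hv0
    simp only [hD]
    linarith
  have hsub : ∀ X : V3, speed 0 (grad (Psi e k) X) (hess (Psi e k) X)
      + 1 * prof e k ![X 0, X 1] * PP 2 ≤ 1 - D v0 / 2 := by
    intro X
    have h1 : D v0 ≤ D (pt X) := hmin (pt_mem X)
    rw [speed_zero_Psi, hfP]
    simp only [hD] at h1 ⊢
    linarith
  have hlow : ∀ G, IsViscositySolution (prof e k) 0 1 PP G →
      ∀ X t, 0 ≤ t → -(G X t - dot PP X) ≤ (1 - D v0 / 2) * t + 2 * C1 := by
    intro G hG X t ht
    have h1 := compare_below hG hcds hC1 hP2.ne' hgPs (B := B') hB1' hB2' hBf hsub X ht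
    have h2 := (abs_le.1 (hC1 X)).1
    linarith
  refine ⟨prof e k, k / (2 * Real.pi), 1, PP, ⟨K, hK⟩, prof_periodic e k,
    ⟨_, _, prof_nonconst hne⟩, by positivity, one_pos, PP_unit, hP2.ne', 1, 1 - D v0 / 2,
    by linarith, ?_, ?_, ?_, ?_⟩
  · -- effective velocity
    intro G hG X
    have hup : ∀ t, 0 ≤ t → |-(G X t - dot PP X) - t| ≤ 2 * C0 := by
      intro t ht
      have h1 := compare_below hG hcd hC0 hP2.ne' hgP (B := B) hB1 hB2 hBf
        (fun X => (hcell X).le) X ht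
      have h2 := compare_above hG hcd hC0 hP2.ne' hgP (B := B) hB1 hB2 hBf
        (fun X => (hcell X).ge) X ht
      have h3 := abs_le.1 (hC0 X)
      rw [abs_le]
      constructor <;> linarith [h3.1, h3.2]
    have hlim : Tendsto (fun t : ℝ => (2 * C0) / t) atTop (nhds 0) :=
      tendsto_const_nhds.div_atTop tendsto_id
    rw [tendsto_iff_norm_sub_tendsto_zero]
    refine squeeze_zero' (Eventually.of_forall fun t => norm_nonneg _) ?_ hlim
    filter_upwards [eventually_gt_atTop 0] with t ht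
    have h1 := hup t ht.le
    have e1 : -((G X t - dot PP X) / t) - 1 = (-(G X t - dot PP X) - t) / t := by
      field_simp
    rw [e1, Real.norm_eq_abs, abs_div, abs_of_pos ht]
    exact div_le_div_of_nonneg_right h1 ht.le
  · intro G hG
    exact ⟨2 * C1, hlow G hG⟩
  · intro H0 hex hH0
    obtain ⟨G, hG⟩ := hex
    have h1 := hH0 G hG 0
    have h2 : Tendsto (fun t : ℝ => (1 - D v0 / 2) + (2 * C1) / t) atTop
        (nhds ((1 - D v0 / 2) + 0)) :=
      tendsto_const_nhds.add (tendsto_const_nhds.div_atTop tendsto_id)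
    rw [add_zero] at h2
    refine le_of_tendsto_of_tendsto h1 h2 ?_
    filter_upwards [eventually_gt_atTop 0] with t ht
    have h3 := hlow G hG 0 t ht.le
    have e1 : -((G 0 t - dot PP 0) / t) = -(G 0 t - dot PP 0) / t := by ring
    rw [e1, div_le_iff₀ ht]
    have e2 : (1 - D v0 / 2 + 2 * C1 / t) * t = (1 - D v0 / 2) * t + 2 * C1 := by
      field_simp
    rw [e2]
    exact h3
  · refine ⟨Phi e, hcd, ⟨C0, hC0⟩, fun X => ⟨?_, ?_⟩⟩
    · intro h
      have := hgP X
      rw [h] at this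
      simp only [Pi.zero_apply] at this
      linarith
    · rw [hgP]; exact hcell X

end Pool.Agent.Results.MP_d0383e_an.CurvatureSpeedsUp
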